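import Pool.Agent.Q25.PLP.Stm

/-!
# Project PLP (helper25), job PLP-ABT: a real inequality for the near-projective case
-/

set_option autoImplicit false

open Finset Pool.Agent.Helper123.PLP

namespace Pool.Agent.Q153.PLPABT

open Pool.Agent.Q25.PLP

theorem one_case (k t : ℝ) (hk : 2 ≤ k) (ht0 : 0 ≤ t) (ht : t * (k ^ 2 + 1) ≤ k - 1) :
    2 * k * t ^ 2 + t ≤ 1 := by
  have h0 : 0 < k ^ 2 + 1 := by positivity
  set x := t * (k ^ 2 + 1) with hx
  have hx0 : 0 ≤ x := by positivity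
  have h1 : x ^ 2 ≤ (k - 1) ^ 2 := pow_le_pow_left₀ hx0 ht 2
  have h2 : 2 * k * x ^ 2 + x * (k ^ 2 + 1) ≤ (k ^ 2 + 1) ^ 2 := by
    have h3 : 2 * k * x ^ 2 ≤ 2 * k * (k - 1) ^ 2 := mul_le_mul_of_nonneg_left h1 (by linarith)
    have h4 : x * (k ^ 2 + 1) ≤ (k - 1) * (k ^ 2 + 1) := mul_le_mul_of_nonneg_right ht h0.le
    have h5 : 2 * k * (k - 1) ^ 2 + (k - 1) * (k ^ 2 + 1) ≤ (k ^ 2 + 1) ^ 2 := by
      nlinarith [sq_nonneg (k ^ 2 - k), sq_nonneg (k - 1), mul_nonneg (by linarith : (0:ℝ) ≤ k) (sq_nonneg (k - 2)),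
        sq_nonneg (k ^ 2 - 2 * k), sq_nonneg (k ^ 2)]
    linarith
  have h6 : (2 * k * t ^ 2 + t) * (k ^ 2 + 1) ^ 2 ≤ 1 * (k ^ 2 + 1) ^ 2 := by
    have : (2 * k * t ^ 2 + t) * (k ^ 2 + 1) ^ 2 = 2 * k * x ^ 2 + x * (k ^ 2 + 1) := by
      rw [hx]; ring
    rw [this, one_mul]
    exact h2
  exact le_of_mul_le_mul_right h6 (by positivity)

theorem two_case (k n t : ℝ) (hn : 2 ≤ n) (hkn : n + 1 ≤ k) (ht0 : 0 ≤ t)
    (ht : t * (k ^ 2 + 1) ≤ k - n) : (n - 1 + t) ^ 2 ≤ n * (n - 1) * (1 - t) := by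
  have h0 : 0 < k ^ 2 + 1 := by positivity
  have hk : 3 ≤ k := by linarith
  have h1 : t * (n + 2) ≤ 5 / 8 := by
    have h2 : (t * (n + 2)) * (k ^ 2 + 1) ≤ (5 / 8) * (k ^ 2 + 1) := by
      have h3 : t * (k ^ 2 + 1) * (n + 2) ≤ (k - n) * (n + 2) :=
        mul_le_mul_of_nonneg_right ht (by linarith)
      have h4 : (k - n) * (n + 2) ≤ (k + 2) ^ 2 / 4 := by nlinarith [sq_nonneg (k - n - (n + 2))]
      have h5 : (k + 2) ^ 2 / 4 ≤ (5 / 8) * (k ^ 2 + 1) := by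
        nlinarith [mul_nonneg (by linarith : (0:ℝ) ≤ k - 3) (by linarith : (0:ℝ) ≤ 3 / 2 * k + 1 / 2)]
      nlinarith
    exact le_of_mul_le_mul_right h2 h0
  have h2 : t ≤ 1 / 6 := by
    have h3 : t * (k ^ 2 + 1) ≤ (1 / 6) * (k ^ 2 + 1) := by nlinarith [sq_nonneg (k - 3)]
    exact le_of_mul_le_mul_right h3 h0
  have h3 : (n - 1) * (1 - t * (n + 2)) ≥ 1 * (3 / 8) := by
    apply mul_le_mul <;> linarith
  have h4 : t ^ 2 ≤ (1 / 6) ^ 2 := pow_le_pow_left₀ ht0 h2 2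
  nlinarith

theorem t_ABT (h : S_LC) : S_ABT := by
  intro Z Y _ _ ζ ξ κ N k b hN hk hkb hbN hZ hζ hξ hκ hθ
  have hN' : (1 : ℝ) ≤ N := by exact_mod_cast hN
  have hk' : (2 : ℝ) ≤ k := by exact_mod_cast hk
  have hkb' : (k : ℝ) ^ 2 + 1 ≤ b := by exact_mod_cast hkb
  have hbN' : (b : ℝ) + N ≤ (k : ℝ) ^ 2 + k := by exact_mod_cast hbN
  have hb0 : (0 : ℝ) < b := by nlinarith
  have hZ' : (Fintype.card Z : ℝ) ≤ b := by exact_mod_cast hZ
  set W := ∑ z, ζ z with hW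
  have hW0 : 0 ≤ W := Finset.sum_nonneg fun z _ => hζ z
  -- the layer cake
  have hlc : (k : ℝ) ^ 2 / b * W ≤ ∑ l, ξ l := by
    apply h Z Y ζ ξ _ (by positivity) hζ hξ
    intro θ hθ0
    have h1 := hθ θ hθ0
    have hs : ((univ.filter (fun z => θ < ζ z)).card : ℝ) ≤ b := by
      have : (univ.filter (fun z => θ < ζ z)).card ≤ Fintype.card Z := by
        rw [← Finset.card_univ]
        exact Finset.card_le_card (Finset.filter_subset _ _)
      have h2 : ((univ.filter (fun z => θ < ζ z)).card : ℝ) ≤ Fintype.card Z := by exact_mod_cast this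
      linarith
    set s : ℝ := ((univ.filter (fun z => θ < ζ z)).card : ℝ) with hsdef
    have hs0 : 0 ≤ s := Nat.cast_nonneg _
    have h2 : min s ((k : ℝ) ^ 2) ≤ ((univ.filter (fun l => θ < ξ l)).card : ℝ) := by
      have : ((min (univ.filter (fun z => θ < ζ z)).card (k ^ 2) : ℕ) : ℝ) ≤
          ((univ.filter (fun l => θ < ξ l)).card : ℝ) := by exact_mod_cast h1
      push_cast at this
      exact this
    refine le_trans ?_ h2
    apply le_min
    · have : (k : ℝ) ^ 2 / b ≤ 1 := by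
        rw [div_le_one hb0]
        linarith
      calc (k : ℝ) ^ 2 / b * s ≤ 1 * s := mul_le_mul_of_nonneg_right this hs0
        _ = s := one_mul s
    · rw [div_mul_eq_mul_div, div_le_iff₀ hb0]
      exact mul_le_mul_of_nonneg_left hs (by positivity)
  -- Cauchy-Schwarz
  have hbk : 0 < (b : ℝ) + N - k := by nlinarith
  have hcs : ((b : ℝ) + N - k) / b * W ^ 2 ≤ ∑ z, κ z * (ζ z) ^ 2 := by
    have h1 : W ^ 2 ≤ b * ∑ z, (ζ z) ^ 2 := by
      have h2 : W ^ 2 ≤ (Fintype.card Z : ℝ) * ∑ z, (ζ z) ^ 2 := by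
        have := sq_sum_le_card_mul_sum_sq (s := (univ : Finset Z)) (f := ζ)
        rw [Finset.card_univ] at this
        exact this
      have h3 : 0 ≤ ∑ z, (ζ z) ^ 2 := Finset.sum_nonneg fun z _ => sq_nonneg _
      exact h2.trans (mul_le_mul_of_nonneg_right hZ' h3)
    have h4 : ((b : ℝ) + N - k) * ∑ z, (ζ z) ^ 2 ≤ ∑ z, κ z * (ζ z) ^ 2 := by
      rw [Finset.mul_sum]
      exact Finset.sum_le_sum fun z _ => mul_le_mul_of_nonneg_right (hκ z) (sq_nonneg _)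
    refine le_trans ?_ h4
    rw [div_mul_eq_mul_div, div_le_iff₀ hb0]
    calc ((b : ℝ) + N - k) * W ^ 2 ≤ ((b : ℝ) + N - k) * (b * ∑ z, (ζ z) ^ 2) :=
          mul_le_mul_of_nonneg_left h1 hbk.le
      _ = _ := by ring
  -- the number `t`
  set t : ℝ := ((k : ℝ) - N) / b with htdef
  have hkN : (N : ℝ) + 1 ≤ k := by linarith
  have ht0 : 0 < t := by
    rw [htdef]
    apply div_pos _ hb0
    linarith
  have htb : t * b = k - N := by
    rw [htdef]
    field_simp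
  have htk : t * ((k : ℝ) ^ 2 + 1) ≤ k - N := by
    rw [← htb]
    exact mul_le_mul_of_nonneg_left hkb' ht0.le
  have e1 : ((b : ℝ) + N - k) / b = 1 - t := by
    rw [htdef]
    field_simp
    ring
  have e2 : 1 - t ≤ (k : ℝ) ^ 2 / b := by
    rw [← e1]
    apply div_le_div_of_nonneg_right _ hb0.le
    linarith
  have ht1 : 0 < 1 - t := by
    rw [← e1]
    positivity
  rw [e1] at hcs
  have hmain : (N : ℝ) * (N - 1) - 2 * (N - 1 + t) * W + (1 - t) * W ^ 2 ≤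
      (N : ℝ) * ((N : ℝ) - 1) - 2 * (N : ℝ) * W + 2 * ∑ l, ξ l + ∑ z, κ z * (ζ z) ^ 2 := by
    have h5 : (1 - t) * W ≤ ∑ l, ξ l := (mul_le_mul_of_nonneg_right e2 hW0).trans hlc
    linarith
  refine le_trans ?_ hmain
  have hsq : (1 - t) * ((N : ℝ) * (N - 1) - 2 * (N - 1 + t) * W + (1 - t) * W ^ 2) =
      ((1 - t) * W - (N - 1 + t)) ^ 2 + ((N : ℝ) * (N - 1) * (1 - t) - (N - 1 + t) ^ 2) := by ring
  rcases Nat.lt_or_ge N 2 with h2 | h2
  · have hN1 : (N : ℝ) = 1 := by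
      have : N = 1 := by omega
      rw [this, Nat.cast_one]
    rw [hN1] at htk hsq ⊢
    have h6 := one_case k t hk' ht0.le htk
    have h7 : (1 - t) * (-(1 / (2 * (k : ℝ)))) ≤
        (1 - t) * ((1 : ℝ) * (1 - 1) - 2 * (1 - 1 + t) * W + (1 - t) * W ^ 2) := by
      rw [hsq]
      have h8 : (1 - t) * (-(1 / (2 * (k : ℝ)))) ≤ - t ^ 2 := by
        have h9 : t ^ 2 ≤ (1 - t) * (1 / (2 * (k : ℝ))) := by
          rw [mul_one_div, le_div_iff₀ (by linarith)]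
          nlinarith
        linarith
      have h10 := sq_nonneg ((1 - t) * W - (1 - 1 + t))
      have h11 : (1 : ℝ) * (1 - 1) * (1 - t) - (1 - 1 + t) ^ 2 = - t ^ 2 := by
        ring
      rw [h11]
      linarith
    exact le_of_mul_le_mul_left h7 ht1
  · have h3 : (2 : ℝ) ≤ N := by exact_mod_cast h2
    have h6 := two_case k N t h3 hkN ht0.le htk
    have h7 : (1 - t) * 0 ≤
        (1 - t) * ((N : ℝ) * (N - 1) - 2 * (N - 1 + t) * W + (1 - t) * W ^ 2) := by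
      rw [hsq, mul_zero]
      have h10 := sq_nonneg ((1 - t) * W - ((N : ℝ) - 1 + t))
      linarith
    have h8 := le_of_mul_le_mul_left h7 ht1
    have h9 : 0 ≤ 1 / (2 * (k : ℝ)) := by positivity
    linarith

end Pool.Agent.Q153.PLPABT
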