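import Pool.Agent.Q25.PLP.Stm

/-!
# Project PLP (helper25), job PLP-R3: the geometry of a finite set of points in space
-/

set_option autoImplicit false

open Finset Pool.Agent.Helper123.PLP

namespace Pool.Agent.Q153.PLPR3

open Pool.Agent.Q25.PLP

/-- space -/
abbrev E3 : Type := EuclideanSpace ℝ (Fin 3)

/-- a line is spanned by any two points of it -/
theorem line_eq {a b x y : E3} (hab : a ≠ b) (hx : x ∈ affineSpan ℝ ({a, b} : Set E3))
    (hy : y ∈ affineSpan ℝ ({a, b} : Set E3)) (hxy : x ≠ y) :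
    affineSpan ℝ ({a, b} : Set E3) = affineSpan ℝ ({x, y} : Set E3) := by
  have hc := collinear_insert_insert_of_mem_affineSpan_pair hx hy
  rw [hc.affineSpan_eq_of_ne (p₁ := x) (p₂ := y) (by simp) (by simp) hxy,
    hc.affineSpan_eq_of_ne (p₁ := a) (p₂ := b) (by simp) (by simp) hab]

theorem range3 (a b c : E3) : Set.range ![a, b, c] = ({a, b, c} : Set E3) := by
  ext x
  simp [eq_comm]
  tauto

/-- a plane is spanned by any three noncollinear points of it -/
theorem plane_eq {a b c x y z : E3} (habc : ¬ Collinear ℝ ({a, b, c} : Set E3))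
    (hx : x ∈ affineSpan ℝ ({a, b, c} : Set E3)) (hy : y ∈ affineSpan ℝ ({a, b, c} : Set E3))
    (hz : z ∈ affineSpan ℝ ({a, b, c} : Set E3)) (hxyz : ¬ Collinear ℝ ({x, y, z} : Set E3)) :
    affineSpan ℝ ({a, b, c} : Set E3) = affineSpan ℝ ({x, y, z} : Set E3) := by
  have h1 := affineIndependent_iff_not_collinear_set.2 habc
  have h2 := affineIndependent_iff_not_collinear_set.2 hxyz
  have h3 : Module.finrank ℝ (affineSpan ℝ ({a, b, c} : Set E3)).direction = 2 := by
    rw [direction_affineSpan, ← range3]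
    exact h1.finrank_vectorSpan (by simp)
  have h4 := h2.affineSpan_eq_of_le_of_card_eq_finrank_add_one
    (sp := affineSpan ℝ ({a, b, c} : Set E3)) (by
      rw [affineSpan_le, range3]
      rintro w (rfl | rfl | rfl)
      · exact hx
      · exact hy
      · exact hz) (by rw [h3]; simp)
  rw [← h4, range3]

section

variable {n : ℕ} (p : Fin n → E3)

open Classical in
/-- the trace of a subspace -/
noncomputable def tr (A : AffineSubspace ℝ E3) : Finset (Fin n) := univ.filter (fun i => p i ∈ A)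

theorem mem_tr {A : AffineSubspace ℝ E3} {i : Fin n} : i ∈ tr p A ↔ p i ∈ A := by
  unfold tr
  simp

/-- the lines -/
def LL : Set (AffineSubspace ℝ E3) :=
  {L | ∃ i j : Fin n, p i ≠ p j ∧ L = affineSpan ℝ ({p i, p j} : Set E3)}

/-- the planes -/
def HH : Set (AffineSubspace ℝ E3) :=
  {Q | ∃ i j k : Fin n, ¬ Collinear ℝ ({p i, p j, p k} : Set E3) ∧
    Q = affineSpan ℝ ({p i, p j, p k} : Set E3)}

/-- the subspaces spanned by points -/
def GG : Set (AffineSubspace ℝ E3) := {A | ∃ T : Set (Fin n), A = affineSpan ℝ (p '' T)}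

theorem tr_inj : Set.InjOn (tr p) (GG p) := by
  have key : ∀ A ∈ GG p, ∀ B : AffineSubspace ℝ E3, tr p A = tr p B → A ≤ B := by
    rintro A ⟨T, rfl⟩ B h
    rw [affineSpan_le]
    rintro _ ⟨i, hi, rfl⟩
    have h1 : i ∈ tr p (affineSpan ℝ (p '' T)) := by
      rw [mem_tr]
      exact subset_affineSpan ℝ _ ⟨i, hi, rfl⟩
    rw [h, mem_tr] at h1
    exact h1
  intro A hA B hB h
  exact le_antisymm (key A hA B h) (key B hB A h.symm)

theorem LL_sub : LL p ⊆ GG p := by
  rintro _ ⟨i, j, -, rfl⟩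
  refine ⟨{i, j}, ?_⟩
  rw [Set.image_pair]

theorem HH_sub : HH p ⊆ GG p := by
  rintro _ ⟨i, j, k, -, rfl⟩
  refine ⟨{i, j, k}, ?_⟩
  rw [Set.image_insert_eq, Set.image_pair]

theorem ne_of_nc {a b c : E3} (h : ¬ Collinear ℝ ({a, b, c} : Set E3)) : a ≠ b := by
  rintro rfl
  apply h
  rw [Set.insert_eq_of_mem (by simp)]
  exact collinear_pair ℝ a c

theorem nc_iff {a b c : E3} (hab : a ≠ b) :
    c ∉ affineSpan ℝ ({a, b} : Set E3) ↔ ¬ Collinear ℝ ({a, b, c} : Set E3) := by
  constructor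
  · intro h1 h2
    exact h1 (h2.mem_affineSpan_of_mem_of_ne (by simp) (by simp) (by simp) hab)
  · intro h1 h2
    apply h1
    have h3 := collinear_insert_of_mem_affineSpan_pair h2
    have h4 : ({a, b, c} : Set E3) = {c, a, b} := by
      ext w
      simp only [Set.mem_insert_iff, Set.mem_singleton_iff]
      tauto
    rw [h4]
    exact h3

/-- the geometry -/
noncomputable def geo (hp : Function.Injective p) : Geo (Fin n) where
  L := (Set.toFinite (tr p '' LL p)).toFinset
  H := (Set.toFinite (tr p '' HH p)).toFinset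
  two_le := by
    intro l hl
    rw [Set.Finite.mem_toFinset] at hl
    obtain ⟨_, ⟨i, j, hij, rfl⟩, rfl⟩ := hl
    have h1 : ({i, j} : Finset (Fin n)) ⊆ tr p (affineSpan ℝ ({p i, p j} : Set E3)) := by
      intro k hk
      rw [mem_tr]
      rw [Finset.mem_insert, Finset.mem_singleton] at hk
      rcases hk with rfl | rfl
      · exact left_mem_affineSpan_pair ℝ _ _
      · exact right_mem_affineSpan_pair ℝ _ _
    have h2 := Finset.card_le_card h1
    rw [Finset.card_pair (fun h => hij (congrArg p h))] at h2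
    exact h2
  ex_line := by
    intro x y hxy
    refine ⟨tr p (affineSpan ℝ ({p x, p y} : Set E3)), ?_, ?_, ?_⟩
    · rw [Set.Finite.mem_toFinset]
      exact ⟨_, ⟨x, y, fun h => hxy (hp h), rfl⟩, rfl⟩
    · rw [mem_tr]
      exact left_mem_affineSpan_pair ℝ _ _
    · rw [mem_tr]
      exact right_mem_affineSpan_pair ℝ _ _
  uniq_line := by
    intro l hl l' hl' x y hxy h1 h2 h3 h4
    rw [Set.Finite.mem_toFinset] at hl hl'
    obtain ⟨_, ⟨i, j, hij, rfl⟩, rfl⟩ := hl
    obtain ⟨_, ⟨i', j', hij', rfl⟩, rfl⟩ := hl'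
    rw [mem_tr] at h1 h2 h3 h4
    have hxy' : p x ≠ p y := fun h => hxy (hp h)
    rw [line_eq hij h1 h2 hxy', line_eq hij' h3 h4 hxy']
  ex_plane := by
    intro l hl x hx
    rw [Set.Finite.mem_toFinset] at hl
    obtain ⟨_, ⟨i, j, hij, rfl⟩, rfl⟩ := hl
    rw [mem_tr, nc_iff hij] at hx
    refine ⟨tr p (affineSpan ℝ ({p i, p j, p x} : Set E3)), ?_, ?_, ?_⟩
    · rw [Set.Finite.mem_toFinset]
      exact ⟨_, ⟨i, j, x, hx, rfl⟩, rfl⟩
    · intro k hk
      rw [mem_tr] at hk ⊢
      exact affineSpan_mono ℝ (by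
        rintro w (rfl | rfl)
        · simp
        · simp) hk
    · rw [mem_tr]
      exact subset_affineSpan ℝ _ (by simp)
  uniq_plane := by
    intro l hl x hx h hh h' hh' h1 h2 h3 h4
    rw [Set.Finite.mem_toFinset] at hl hh hh'
    obtain ⟨_, ⟨i, j, hij, rfl⟩, rfl⟩ := hl
    obtain ⟨_, ⟨a, b, c, habc, rfl⟩, rfl⟩ := hh
    obtain ⟨_, ⟨a', b', c', habc', rfl⟩, rfl⟩ := hh'
    rw [mem_tr, nc_iff hij] at hx
    have hi : i ∈ tr p (affineSpan ℝ ({p i, p j} : Set E3)) := by
      rw [mem_tr]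
      exact left_mem_affineSpan_pair ℝ _ _
    have hj : j ∈ tr p (affineSpan ℝ ({p i, p j} : Set E3)) := by
      rw [mem_tr]
      exact right_mem_affineSpan_pair ℝ _ _
    have e1 := (mem_tr p).1 (h1 hi)
    have e2 := (mem_tr p).1 (h1 hj)
    have e3 := (mem_tr p).1 h2
    have f1 := (mem_tr p).1 (h3 hi)
    have f2 := (mem_tr p).1 (h3 hj)
    have f3 := (mem_tr p).1 h4
    rw [plane_eq habc e1 e2 e3 hx, plane_eq habc' f1 f2 f3 hx]
  closed := by
    intro h hh l hl x y hxy h1 h2 h3 h4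
    rw [Set.Finite.mem_toFinset] at hl hh
    obtain ⟨_, ⟨i, j, hij, rfl⟩, rfl⟩ := hl
    obtain ⟨_, ⟨a, b, c, habc, rfl⟩, rfl⟩ := hh
    rw [mem_tr] at h1 h2 h3 h4
    have hxy' : p x ≠ p y := fun h => hxy (hp h)
    intro k hk
    rw [mem_tr] at hk ⊢
    rw [line_eq hij h1 h2 hxy'] at hk
    have h5 : affineSpan ℝ ({p x, p y} : Set E3) ≤ affineSpan ℝ ({p a, p b, p c} : Set E3) := by
      rw [affineSpan_le]
      rintro w (rfl | rfl)
      · exact h3
      · exact h4
    exact h5 hk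
  nondeg := by
    intro h hh
    rw [Set.Finite.mem_toFinset] at hh
    obtain ⟨_, ⟨a, b, c, habc, rfl⟩, rfl⟩ := hh
    have hab := ne_of_nc habc
    refine ⟨tr p (affineSpan ℝ ({p a, p b} : Set E3)), ?_, ?_, c, ?_, ?_⟩
    · rw [Set.Finite.mem_toFinset]
      exact ⟨_, ⟨a, b, hab, rfl⟩, rfl⟩
    · intro k hk
      rw [mem_tr] at hk ⊢
      exact affineSpan_mono ℝ (by
        rintro w (rfl | rfl)
        · simp
        · simp) hk
    · rw [mem_tr]
      exact subset_affineSpan ℝ _ (by simp)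
    · rw [mem_tr]
      exact (nc_iff hab).2 habc

end

theorem t_R3 : S_R3 := by
  intro S
  classical
  let e := S.equivFin
  let p : Fin S.card → E3 := fun i => (e.symm i : E3)
  have hp : Function.Injective p := fun i j h => e.symm.injective (Subtype.ext h)
  have hmem : ∀ i, p i ∈ S := fun i => (e.symm i).2
  have hsur : ∀ x ∈ S, ∃ i, p i = x := fun x hx => ⟨e ⟨x, hx⟩, by
    show ((e.symm (e ⟨x, hx⟩) : S) : E3) = x
    rw [Equiv.symm_apply_apply]⟩
  refine ⟨S.card, geo p hp, rfl, ?_, ?_⟩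
  · have h1 : (geo p hp).L.card = (tr p '' LL p).ncard := by
      show ((Set.toFinite (tr p '' LL p)).toFinset).card = _
      rw [Set.ncard_eq_toFinset_card _ (Set.toFinite (tr p '' LL p))]
    rw [h1, ((tr_inj p).mono (LL_sub p)).ncard_image]
    congr 1
    ext L
    constructor
    · rintro ⟨i, j, hij, rfl⟩
      exact ⟨p i, hmem i, p j, hmem j, hij, rfl⟩
    · rintro ⟨x, hx, y, hy, hxy, rfl⟩
      obtain ⟨i, rfl⟩ := hsur x hx
      obtain ⟨j, rfl⟩ := hsur y hy
      exact ⟨i, j, hxy, rfl⟩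
  · have h1 : (geo p hp).H.card = (tr p '' HH p).ncard := by
      show ((Set.toFinite (tr p '' HH p)).toFinset).card = _
      rw [Set.ncard_eq_toFinset_card _ (Set.toFinite (tr p '' HH p))]
    rw [h1, ((tr_inj p).mono (HH_sub p)).ncard_image]
    congr 1
    ext L
    constructor
    · rintro ⟨i, j, k, hij, rfl⟩
      exact ⟨p i, hmem i, p j, hmem j, p k, hmem k, hij, rfl⟩
    · rintro ⟨x, hx, y, hy, z, hz, hxy, rfl⟩
      obtain ⟨i, rfl⟩ := hsur x hx
      obtain ⟨j, rfl⟩ := hsur y hy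
      obtain ⟨k, rfl⟩ := hsur z hz
      exact ⟨i, j, k, hxy, rfl⟩

end Pool.Agent.Q153.PLPR3
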